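import Pool.Agent.Helper85.CompactHered

/-!
# The algebra of compact operators need not be hereditary

We answer in the negative both questions on each side: for `E = ℓ¹` the Banach algebra `K(E)` is
not projective as a left Banach module over itself (so it is not left hereditary), and for
`E = ℓ^∞` it is not projective as a right Banach module over itself (so it is not right
hereditary).

The main part of the proof is in `Pool.Agent.Helper85.CompactHered`.
-/

open scoped ENNReal

set_option maxSynthPendingDepth 5

namespace Pool.Agent.Results.MP_e07d6f_an.CompactAlgebraNotProjective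

/-! ## The Banach algebra `K(E)` -/

/-- The compact operators on the complex Banach space `E`, as a subalgebra of the algebra
`E →L[ℂ] E` of all bounded operators (with composition as product). -/
def compactOperators (E : Type) [NormedAddCommGroup E] [NormedSpace ℂ E] :
    NonUnitalSubalgebra ℂ (E →L[ℂ] E) where
  carrier := {T | IsCompactOperator T}
  add_mem' := fun ha hb => ha.add hb
  zero_mem' := isCompactOperator_zero
  mul_mem' := fun {_ b} ha _ => ha.comp_clm b
  smul_mem' := fun c _ ha => ha.smul c

/-- The Banach algebra `K(E)` of compact operators on `E`. -/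
def K (E : Type) [NormedAddCommGroup E] [NormedSpace ℂ E] : Type := compactOperators E

/-- `K(E)` is a normed ring for composition and the operator norm. -/
noncomputable instance (E : Type) [NormedAddCommGroup E] [NormedSpace ℂ E] :
    NonUnitalNormedRing (K E) :=
  (inferInstance : NonUnitalNormedRing (compactOperators E))

/-- `K(E)` is a normed space for the operator norm. -/
noncomputable instance (E : Type) [NormedAddCommGroup E] [NormedSpace ℂ E] :
    NormedSpace ℂ (K E) where
  toModule := (inferInstance : Module ℂ (compactOperators E))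
  norm_smul_le := fun c x => norm_smul_le c (x.1 : E →L[ℂ] E)

/-! ## Banach modules -/

section Modules

variable (A : Type) [NonUnitalNormedRing A] [NormedSpace ℂ A]

/-- The map `(a, x) ↦ act a x` makes the Banach space `X` a left Banach `A`-module: it is bounded
bilinear and `(a b) x = a (b x)`. -/
structure IsLeftAction (X : Type) [NormedAddCommGroup X] [NormedSpace ℂ X]
    (act : A → X → X) : Prop where
  bilinear : IsBoundedBilinearMap ℂ (fun p : A × X => act p.1 p.2)
  mul_act : ∀ (a b : A) (x : X), act (a * b) x = act a (act b x)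

/-- The map `(a, x) ↦ act a x`, to be read `x a`, makes the Banach space `X` a right Banach
`A`-module: it is bounded bilinear and `x (a b) = (x a) b`. -/
structure IsRightAction (X : Type) [NormedAddCommGroup X] [NormedSpace ℂ X]
    (act : A → X → X) : Prop where
  bilinear : IsBoundedBilinearMap ℂ (fun p : A × X => act p.1 p.2)
  mul_act : ∀ (a b : A) (x : X), act (a * b) x = act b (act a x)

/-- The map `f : X → Y` is a morphism between the Banach modules `X` and `Y` with actions `actX`
and `actY` of `A`: it is bounded linear and commutes with the actions. -/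
structure IsMorphism (X Y : Type) [NormedAddCommGroup X] [NormedSpace ℂ X]
    [NormedAddCommGroup Y] [NormedSpace ℂ Y] (actX : A → X → X) (actY : A → Y → Y)
    (f : X → Y) : Prop where
  bounded : IsBoundedLinearMap ℂ f
  map_act : ∀ (a : A) (x : X), f (actX a x) = actY a (f x)

/-- The left Banach `A`-module `P` (with action `actP`) is projective in the relative sense of
Banach homology: for every morphism `σ : X → Y` of left Banach `A`-modules which has a bounded
linear right inverse `τ`, every morphism `φ : P → Y` factors as `φ = σ ψ` with a morphism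
`ψ : P → X`. -/
def IsLeftProjective (P : Type) [NormedAddCommGroup P] [NormedSpace ℂ P]
    (actP : A → P → P) : Prop :=
  ∀ (X Y : Type) [NormedAddCommGroup X] [NormedSpace ℂ X] [CompleteSpace X]
    [NormedAddCommGroup Y] [NormedSpace ℂ Y] [CompleteSpace Y]
    (actX : A → X → X) (actY : A → Y → Y),
    IsLeftAction A X actX → IsLeftAction A Y actY →
    ∀ σ : X → Y, IsMorphism A X Y actX actY σ →
    (∃ τ : Y → X, IsBoundedLinearMap ℂ τ ∧ ∀ y, σ (τ y) = y) →
    ∀ φ : P → Y, IsMorphism A P Y actP actY φ →
    ∃ ψ : P → X, IsMorphism A P X actP actX ψ ∧ ∀ p, σ (ψ p) = φ p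

/-- The right Banach `A`-module `P` (with action `actP`) is projective in the relative sense of
Banach homology. -/
def IsRightProjective (P : Type) [NormedAddCommGroup P] [NormedSpace ℂ P]
    (actP : A → P → P) : Prop :=
  ∀ (X Y : Type) [NormedAddCommGroup X] [NormedSpace ℂ X] [CompleteSpace X]
    [NormedAddCommGroup Y] [NormedSpace ℂ Y] [CompleteSpace Y]
    (actX : A → X → X) (actY : A → Y → Y),
    IsRightAction A X actX → IsRightAction A Y actY →
    ∀ σ : X → Y, IsMorphism A X Y actX actY σ →
    (∃ τ : Y → X, IsBoundedLinearMap ℂ τ ∧ ∀ y, σ (τ y) = y) →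
    ∀ φ : P → Y, IsMorphism A P Y actP actY φ →
    ∃ ψ : P → X, IsMorphism A P X actP actX ψ ∧ ∀ p, σ (ψ p) = φ p

/-- The Banach algebra `A` is left hereditary: every closed left ideal `I`, as a left Banach
`A`-module under multiplication in `A`, is projective. -/
def IsLeftHereditary : Prop :=
  ∀ I : Submodule ℂ A, IsClosed (I : Set A) → ∀ hI : (∀ a x : A, x ∈ I → a * x ∈ I),
    IsLeftProjective A I (fun a x => ⟨a * x, hI a x x.2⟩)

/-- The Banach algebra `A` is right hereditary: every closed right ideal `I`, as a right Banach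
`A`-module under multiplication in `A`, is projective. -/
def IsRightHereditary : Prop :=
  ∀ I : Submodule ℂ A, IsClosed (I : Set A) → ∀ hI : (∀ a x : A, x ∈ I → x * a ∈ I),
    IsRightProjective A I (fun a x => ⟨x * a, hI a x x.2⟩)

end Modules

/-- `K(E)` is projective as a left Banach module over itself. -/
def KIsLeftProjective (E : Type) [NormedAddCommGroup E] [NormedSpace ℂ E] : Prop :=
  IsLeftProjective (K E) (K E) (fun a x => a * x)

/-- `K(E)` is projective as a right Banach module over itself. -/
def KIsRightProjective (E : Type) [NormedAddCommGroup E] [NormedSpace ℂ E] : Prop :=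
  IsRightProjective (K E) (K E) (fun a x => x * a)

/-- `K(E)` is left hereditary. -/
def KIsLeftHereditary (E : Type) [NormedAddCommGroup E] [NormedSpace ℂ E] : Prop :=
  IsLeftHereditary (K E)

/-- `K(E)` is right hereditary. -/
def KIsRightHereditary (E : Type) [NormedAddCommGroup E] [NormedSpace ℂ E] : Prop :=
  IsRightHereditary (K E)

/-! ## Proof -/

open Pool.Agent.Helper85.CompactHered

section Bridge

variable {A : Type} [NonUnitalNormedRing A] [NormedSpace ℂ A]

lemma IsLeftHereditary.projective (h : IsLeftHereditary A) :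
    IsLeftProjective A A (fun a x => a * x) := by
  intro X Y _ _ _ _ _ _ actX actY hX hY σ hσ hτ φ hφ
  obtain ⟨ψ, hψ1, hψ2⟩ := h ⊤ (by simp) (fun _ _ _ => trivial) X Y actX actY hX hY σ hσ hτ
    (fun x => φ x)
    ⟨hφ.bounded.comp (Submodule.subtypeL (⊤ : Submodule ℂ A)).isBoundedLinearMap,
      fun a x => hφ.map_act a x⟩
  refine ⟨fun x => ψ ⟨x, trivial⟩, ⟨?_, ?_⟩, ?_⟩
  · exact hψ1.bounded.comp ((ContinuousLinearMap.id ℂ A).codRestrict (⊤ : Submodule ℂ A)
      (fun _ => trivial)).isBoundedLinearMap
  · intro a x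
    exact hψ1.map_act a ⟨x, trivial⟩
  · intro p
    exact hψ2 ⟨p, trivial⟩

lemma IsRightHereditary.projective (h : IsRightHereditary A) :
    IsRightProjective A A (fun a x => x * a) := by
  intro X Y _ _ _ _ _ _ actX actY hX hY σ hσ hτ φ hφ
  obtain ⟨ψ, hψ1, hψ2⟩ := h ⊤ (by simp) (fun _ _ _ => trivial) X Y actX actY hX hY σ hσ hτ
    (fun x => φ x)
    ⟨hφ.bounded.comp (Submodule.subtypeL (⊤ : Submodule ℂ A)).isBoundedLinearMap,
      fun a x => hφ.map_act a x⟩
  refine ⟨fun x => ψ ⟨x, trivial⟩, ⟨?_, ?_⟩, ?_⟩
  · exact hψ1.bounded.comp ((ContinuousLinearMap.id ℂ A).codRestrict (⊤ : Submodule ℂ A)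
      (fun _ => trivial)).isBoundedLinearMap
  · intro a x
    exact hψ1.map_act a ⟨x, trivial⟩
  · intro p
    exact hψ2 ⟨p, trivial⟩

variable [IsScalarTower ℂ A A] [SMulCommClass ℂ A A] [CompleteSpace A]

lemma leftRegular_isProjective (h : IsLeftProjective A A (fun a x => a * x)) :
    (leftRegular A).IsProjective := by
  intro X Y σ hσ hτ φ hφ
  obtain ⟨τ, hτ⟩ := hτ
  obtain ⟨ψ, hψ1, hψ2⟩ := h X.carrier Y.carrier (fun a x => X.act a x) (fun a y => Y.act a y)
    ⟨X.act.isBoundedBilinearMap, X.act_mul⟩ ⟨Y.act.isBoundedBilinearMap, Y.act_mul⟩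
    σ ⟨σ.isBoundedLinearMap, hσ⟩ ⟨τ, τ.isBoundedLinearMap, hτ⟩ φ ⟨φ.isBoundedLinearMap, hφ⟩
  exact ⟨hψ1.bounded.toContinuousLinearMap, fun a x => hψ1.map_act a x, fun p => hψ2 p⟩

lemma rightRegular_isProjective (h : IsRightProjective A A (fun a x => x * a)) :
    (rightRegular A).IsProjective := by
  intro X Y σ hσ hτ φ hφ
  obtain ⟨τ, hτ⟩ := hτ
  obtain ⟨ψ, hψ1, hψ2⟩ := h X.carrier Y.carrier (fun a x => X.act a x) (fun a y => Y.act a y)
    ⟨X.act.isBoundedBilinearMap, X.act_mul⟩ ⟨Y.act.isBoundedBilinearMap, Y.act_mul⟩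
    σ ⟨σ.isBoundedLinearMap, hσ⟩ ⟨τ, τ.isBoundedLinearMap, hτ⟩ φ ⟨φ.isBoundedLinearMap, hφ⟩
  exact ⟨hψ1.bounded.toContinuousLinearMap, fun a x => hψ1.map_act a x, fun p => hψ2 p⟩

end Bridge

instance (E : Type) [NormedAddCommGroup E] [NormedSpace ℂ E] : IsScalarTower ℂ (K E) (K E) where
  smul_assoc c a x := Subtype.ext (smul_mul_assoc c a.1 x.1)

instance (E : Type) [NormedAddCommGroup E] [NormedSpace ℂ E] : SMulCommClass ℂ (K E) (K E) where
  smul_comm c a x := Subtype.ext (mul_smul_comm c a.1 x.1).symm

/-- `K(E)` is complete if `E` is. -/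
instance (E : Type) [NormedAddCommGroup E] [NormedSpace ℂ E] [CompleteSpace E] :
    CompleteSpace (K E) := by
  have h : IsClosed {T : E →L[ℂ] E | IsCompactOperator T} := isClosed_setOfPred_isCompactOperator
  exact h.completeSpace_coe

/-- The identification data for `K(E)` itself. -/
noncomputable def kData (E : Type) [NormedAddCommGroup E] [NormedSpace ℂ E] :
    KData E (K E) where
  i := LinearMap.mkContinuous
    { toFun := fun T => T.1
      map_add' := fun _ _ => rfl
      map_smul' := fun _ _ => rfl } 1 (fun T => by rw [one_mul]; exact le_of_eq rfl)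
  norm_i := fun _ => rfl
  i_mul := fun _ _ => rfl
  compact := fun a => a.2
  rk := fun x φ => ⟨φ.smulRight x,
    (isCompactOperator_of_locallyCompactSpace_dom φ).clm_comp
      ((ContinuousLinearMap.id ℂ ℂ).smulRight x)⟩
  i_rk := fun _ _ => rfl
  mulL := LinearMap.mkContinuous₂
    (LinearMap.mk₂ ℂ (fun (a : E →L[ℂ] E) (b : K E) =>
        (⟨a * b.1, IsCompactOperator.clm_comp b.2 a⟩ : K E))
      (fun a b x => Subtype.ext (add_mul a b x.1))
      (fun c a x => Subtype.ext (smul_mul_assoc c a x.1))
      (fun a x y => Subtype.ext (mul_add a x.1 y.1))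
      (fun c a x => Subtype.ext (mul_smul_comm c a x.1))) 1
    (by intro a x; rw [one_mul]; exact norm_mul_le a x.1)
  i_mulL := fun _ _ => rfl
  mulR := LinearMap.mkContinuous₂
    (LinearMap.mk₂ ℂ (fun (a : K E) (b : E →L[ℂ] E) =>
        (⟨a.1 * b, IsCompactOperator.comp_clm a.2 b⟩ : K E))
      (fun a b x => Subtype.ext (add_mul a.1 b.1 x))
      (fun c a x => Subtype.ext (smul_mul_assoc c a.1 x))
      (fun a x y => Subtype.ext (mul_add a.1 x y))
      (fun c a x => Subtype.ext (mul_smul_comm c a.1 x))) 1
    (by intro a x; rw [one_mul]; exact norm_mul_le a.1 x)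
  i_mulR := fun _ _ => rfl

/-- **Main result.** The Banach algebra `K(ℓ¹)` of compact operators on `ℓ¹` is not projective as
a left Banach module over itself, hence not left hereditary; the Banach algebra `K(ℓ^∞)` is not
projective as a right Banach module over itself, hence not right hereditary. -/
theorem result :
    (¬ KIsLeftProjective (lp (fun _ : ℕ => ℂ) 1) ∧ ¬ KIsLeftHereditary (lp (fun _ : ℕ => ℂ) 1)) ∧
    (¬ KIsRightProjective (lp (fun _ : ℕ => ℂ) ⊤) ∧
      ¬ KIsRightHereditary (lp (fun _ : ℕ => ℂ) ⊤)) := by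
  have h1 : ¬ KIsLeftProjective (lp (fun _ : ℕ => ℂ) 1) :=
    fun h => left_contradiction (kData L1) (leftRegular_isProjective h)
  have h2 : ¬ KIsRightProjective (lp (fun _ : ℕ => ℂ) ⊤) :=
    fun h => right_contradiction (kData Linf) (rightRegular_isProjective h)
  exact ⟨⟨h1, fun h => h1 (IsLeftHereditary.projective h)⟩,
    ⟨h2, fun h => h2 (IsRightHereditary.projective h)⟩⟩

end Pool.Agent.Results.MP_e07d6f_an.CompactAlgebraNotProjective
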